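import Pool.Agent.Y546.WQ.QCrit

/-!
# The criterion of Kummer and Eichler over quadratic fields

Let `K` be a quadratic field of discriminant `d` and `p ≥ 7` a prime such that `- 3 d` is not a nonzero
square modulo `p`. Suppose that `p` does not divide the Bernoulli number with index `p - 3`, and that
`p` does not divide the Bernoulli number with index `p - 5` or `- 7 d` is not a nonzero square modulo
`p`; or that `2 (i + 1) (i + 2) + 3 ≤ p`, where `i` is the index of irregularity of `p`. Then the first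
case of Fermat's Last Theorem holds over `K` for all exponents divisible by `p`. For `K = Q(√-3)`,
where `1 + ω ^ p + ω ^ (2 p) = 0`, we have `- 3 d = 9`, so a condition of this kind is needed. There is
no condition on the class number and units of `K` and no condition of Wieferich.

Proof. Let `X ^ p + Y ^ p + Z ^ p = 0` in the first case, `A, B, G` the norms of `X, Y, Z` and `t` the
trace of `X` times the conjugate of `Y`. The norm `A + t ζ + B ζ ^ 2` of `X + ζ Y` to the field of
`p`-th roots of unity is a rational number times the `p`-th power of an ideal. The relations of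
Stickelberger for the Jacobi sums modulo `p`, up to the third power of `1 - ζ`, give
`(A - B) (G ^ 2 - 3 (A + B) G + 2 (A - B) ^ 2) = 0` modulo `p` and its two conjugates. These show that
`A, B, G` are congruent modulo `p` or proportional to `2, 2, 7` in some order. Then
`t ^ 2 - 4 A B`, a square times `d`, is `- 3` or `- 7` times a square. The second case is excluded by
the relation up to the fifth power of `1 - ζ`, or by the argument of Eichler.
-/

set_option autoImplicit false

namespace Pool.Agent.Results.MP_50a406_nt.BernoulliQuadratic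

open NumberField IsDedekindDomain

/-- The even numbers `k` with `2 ≤ k ≤ p - 3` for which `p` divides the numerator of the Bernoulli
number with index `k`. Their number is the index of irregularity of `p`. -/
def Irregular (p : ℕ) : Finset ℕ :=
  (Finset.range p).filter fun k => Even k ∧ 2 ≤ k ∧ k + 3 ≤ p ∧ (p : ℤ) ∣ (bernoulli k).num

theorem result (K : Type) [Field K] [NumberField K] (hK : Module.finrank ℚ K = 2)
    (p n : ℕ) (hp : p.Prime) (h7 : 7 ≤ p)
    (hB : (¬ (p : ℤ) ∣ (bernoulli (p - 3)).num ∧ (¬ (p : ℤ) ∣ (bernoulli (p - 5)).num ∨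
        ¬ ∃ s : ZMod p, s ≠ 0 ∧ s ^ 2 = -7 * (NumberField.discr K : ZMod p))) ∨
      2 * (((Irregular p).card + 1) * ((Irregular p).card + 2)) + 3 ≤ p)
    (hd : ¬ ∃ s : ZMod p, s ≠ 0 ∧ s ^ 2 = -3 * (NumberField.discr K : ZMod p))
    (hn : p ∣ n) (x y z : K) (h : x ^ n + y ^ n = z ^ n) (hx : x ≠ 0) (hy : y ≠ 0) (hz : z ≠ 0) :
    ∃ v : HeightOneSpectrum (𝓞 K), ((p : ℕ) : 𝓞 K) ∈ v.asIdeal ∧
      ¬ (v.valuation K x = v.valuation K y ∧ v.valuation K y = v.valuation K z) := by
  by_contra hcon
  push Not at hcon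
  obtain ⟨k, rfl⟩ := hn
  have hodd : Odd p := hp.odd_of_ne_two (by omega)
  have hF : (x ^ k) ^ p + (y ^ k) ^ p + (-z ^ k) ^ p = 0 := by
    rw [hodd.neg_pow, ← pow_mul, ← pow_mul, ← pow_mul, mul_comm k p, h]
    ring
  have hirr : ∀ j : ℕ, ¬ (p : ℤ) ∣ (bernoulli j).num → j ∉ Y546.WQ.irr p := by
    intro j hj hk
    unfold Y546.WQ.irr at hk
    exact hj (Finset.mem_filter.1 hk).2.2.2.2
  have hcond : (p - 3 ∉ Y546.WQ.irr p ∧ ((¬ ∃ s : ZMod p, s ≠ 0 ∧
        s ^ 2 = -7 * (NumberField.discr K : ZMod p)) ∨ p - 5 ∉ Y546.WQ.irr p)) ∨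
      2 * (((Y546.WQ.irr p).card + 1) * ((Y546.WQ.irr p).card + 2)) + 3 ≤ p := by
    rcases hB with ⟨h1, h2 | h2⟩ | h1
    · exact Or.inl ⟨hirr _ h1, Or.inr (hirr _ h2)⟩
    · exact Or.inl ⟨hirr _ h1, Or.inl h2⟩
    · exact Or.inr h1
  refine Y546.WQ.mainQC hp h7 hK hcond hd (pow_ne_zero k hx) (pow_ne_zero k hy)
    (neg_ne_zero.2 (pow_ne_zero k hz)) hF fun v hv => ?_
  obtain ⟨h1, h2⟩ := hcon v hv
  rw [Valuation.map_neg, map_pow, map_pow, map_pow, h1, h2]
  exact ⟨rfl, rfl⟩

end Pool.Agent.Results.MP_50a406_nt.BernoulliQuadratic
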