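import Pool.Agent.Y546.WQ.EvnQ
import Pool.Agent.Y702.WQ.IDEE
import Pool.Agent.Y445.WQ.CUB

/-!
# Even exponents over quadratic fields

Let `p ≥ 11` be a prime which does not divide the Bernoulli number with index `p - 3`, or let
`p ≠ 13` and let `2 ^ (p - 1)` be not congruent to `1` modulo `p ^ 2`. Let `K` be a quadratic field
of discriminant `d`. Suppose that `p` is congruent to `5` or `7` modulo `12` (that is, `3` is not a
square modulo `p`) or that `- d` is not a nonzero square modulo `p`. Then the first case of Fermat's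
Last Theorem holds over `K` for all exponents divisible by `2 p`.

Proof. Let `x ^ (2 p) + y ^ (2 p) = z ^ (2 p)` in the first case and let `A, B, D` be the norms of
`z, y, x` and `r, q` the traces of `z` times the conjugates of `y`, `x`. The norm `A - r ζ + B ζ ^ 2` of
`z - ζ y` to the field of `p`-th roots of unity is a rational number times the `p`-th power of an
ideal, and the same holds for `z + ζ y`, where `r` becomes `- r`. The relations of the annihilators
of the class group with index three (Kummer), or the relation of Wieferich, hold for both signs,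
for both pairs. With `D ^ 2 = (A + B) ^ 2 - r ^ 2` and `B ^ 2 = (A + D) ^ 2 - q ^ 2` modulo `p` they give
that `A, B, D` are congruent modulo `p`, so `r ^ 2 = 3 A ^ 2`, and `r ^ 2 - 4 A B = - A ^ 2` is `d` times a
square modulo `p`.
-/

set_option autoImplicit false

namespace Pool.Agent.Results.MP_50a406_nt.EvenExponents

open NumberField IsDedekindDomain

theorem two_not_sq : ∀ r : ZMod 3, (2 : ZMod 3) ≠ r * r := by decide

theorem three_not_sq {p : ℕ} (hp : p.Prime) (h : p % 12 = 5 ∨ p % 12 = 7) :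
    ¬ ∃ s : ZMod p, s ≠ 0 ∧ s ^ 2 = 3 := by
  rintro ⟨s, -, hs⟩
  have : Fact p.Prime := ⟨hp⟩
  have : Fact (Nat.Prime 3) := ⟨Nat.prime_three⟩
  have h1 : IsSquare ((3 : ℕ) : ZMod p) := ⟨s, by rw [← sq, hs]; norm_num⟩
  rcases h with h | h
  · have h2 := (ZMod.exists_sq_eq_prime_iff_of_mod_four_eq_one (p := p) (q := 3) (by omega)
      (by decide)).1 h1
    have h3 : ((p : ℕ) : ZMod 3) = 2 := by
      have : ((p : ℕ) : ZMod 3) = ((2 : ℕ) : ZMod 3) := by
        rw [ZMod.natCast_eq_natCast_iff']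
        omega
      simpa using this
    rw [h3] at h2
    obtain ⟨r, hr⟩ := h2
    exact two_not_sq r hr
  · have h2 := (ZMod.exists_sq_eq_prime_iff_of_mod_four_eq_three (p := p) (q := 3) (by omega)
      (by decide) (by omega)).1 h1
    have h3 : ((p : ℕ) : ZMod 3) = 1 := by
      have : ((p : ℕ) : ZMod 3) = ((1 : ℕ) : ZMod 3) := by
        rw [ZMod.natCast_eq_natCast_iff']
        omega
      simpa using this
    rw [h3] at h2
    exact h2 (IsSquare.one)

theorem result (K : Type) [Field K] [NumberField K] (hK : Module.finrank ℚ K = 2)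
    (p n : ℕ) (hp : p.Prime) (h11 : 11 ≤ p)
    (hB : ¬ (p : ℤ) ∣ (bernoulli (p - 3)).num ∨ (p ≠ 13 ∧ ¬ p ^ 2 ∣ 2 ^ (p - 1) - 1))
    (hd : p % 12 = 5 ∨ p % 12 = 7 ∨
      ¬ ∃ s : ZMod p, s ≠ 0 ∧ s ^ 2 = -(NumberField.discr K : ZMod p))
    (hn : 2 * p ∣ n) (x y z : K) (h : x ^ n + y ^ n = z ^ n) (hx : x ≠ 0) (hy : y ≠ 0) (hz : z ≠ 0) :
    ∃ v : HeightOneSpectrum (𝓞 K), ((p : ℕ) : 𝓞 K) ∈ v.asIdeal ∧
      ¬ (v.valuation K x = v.valuation K y ∧ v.valuation K y = v.valuation K z) := by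
  by_contra hcon
  push Not at hcon
  obtain ⟨k, rfl⟩ := hn
  have hF : (x ^ k) ^ (2 * p) + (y ^ k) ^ (2 * p) = (z ^ k) ^ (2 * p) := by
    rw [← pow_mul, ← pow_mul, ← pow_mul, mul_comm k (2 * p), h]
  have hB' : p - 3 ∉ Y546.WQ.irr p ∨ (p ≠ 13 ∧ ¬ p ^ 2 ∣ 2 ^ (p - 1) - 1) := by
    rcases hB with h' | h'
    · refine Or.inl fun hk => h' ?_
      unfold Y546.WQ.irr at hk
      exact (Finset.mem_filter.1 hk).2.2.2.2
    · exact Or.inr h'
  have hd' : (¬ ∃ s : ZMod p, s ≠ 0 ∧ s ^ 2 = 3) ∨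
      ¬ ∃ s : ZMod p, s ≠ 0 ∧ s ^ 2 = -(NumberField.discr K : ZMod p) := by
    rcases hd with h' | h' | h'
    · exact Or.inl (three_not_sq hp (Or.inl h'))
    · exact Or.inl (three_not_sq hp (Or.inr h'))
    · exact Or.inr h'
  refine Y546.WQ.mainE Y702.WQ.mainIDEE Y445.WQ.mainCUB hp h11 hB' hK hd' (pow_ne_zero k hx)
    (pow_ne_zero k hy) (pow_ne_zero k hz) hF fun v hv => ?_
  obtain ⟨h1, h2⟩ := hcon v hv
  rw [map_pow, map_pow, map_pow, h1, h2]
  exact ⟨rfl, rfl⟩

end Pool.Agent.Results.MP_50a406_nt.EvenExponents
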