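import Pool.Agent.Y546.WQ.QuadR
import Pool.Agent.Y700.WQ.KA
import Pool.Agent.Y448.WQ.KB
import Pool.Agent.Y363.WQ.KC
import Pool.Agent.Y693.WQ.KRAM
import Pool.Agent.Y837.WQ.KTOW
import Pool.Agent.Y651.WQ.KFIN
import Pool.Agent.Y936.WQ.KTWO
import Pool.Agent.Y309.WQ.KNQ
import Pool.Agent.Y849.WQ.IDES
import Pool.Agent.Y950.WQ.NOZ

/-!
# Even exponents over real quadratic fields of prime discriminant

Let `q` be a prime, `q = 1` modulo `8`, and `K = Q(√q)`. Let `p` be an odd prime which is inert in `K`
(this is the case for half of all primes). Then the first case of Fermat's Last Theorem holds over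
`K` for all exponents divisible by `2 p`. There is no condition on the class number, on Bernoulli
numbers or of Wieferich type.

Proof. Let `x ^ (2 p) + y ^ (2 p) = z ^ (2 p)` be prime to `p`. Two splits in `K`; let `P` be a prime
above two. After exchanging `x` and `y` we may assume that `P` divides `x`. Let `M` be the field
of `p`-th roots of unity over `K`; it is totally ramified at `p`. The element `a = z ^ 2 - ζ y ^ 2` of `M`
generates the square of an ideal and is a unit at `p`. Let `L` be the real subfield of `M` whose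
degree over `K` is the largest power of two possible. Every totally positive element of `K` with
even valuations is a square, as `K` is the quadratic subfield of the field of `q`-th roots of
unity, and by induction along the tower between `K` and `L` (Hilbert 90) the same holds in `L`. So
the norm of `a` from `M` to `L` is a square. But modulo four, at the primes above `P`, it is `-1`
times a square.
-/

set_option autoImplicit false

namespace Pool.Agent.Results.MP_50a406_nt.EvenInert

open NumberField IsDedekindDomain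

theorem result (K : Type) [Field K] [NumberField K] (hK : Module.finrank ℚ K = 2)
    (q : ℕ) (hq : q.Prime) (hq8 : q % 8 = 1) (hr : ∃ r : K, r ^ 2 = (q : K))
    (p n : ℕ) (hp : p.Prime) (hp2 : p ≠ 2) (hin : (Ideal.span {((p : ℕ) : 𝓞 K)}).IsPrime)
    (hn : 2 * p ∣ n) (x y z : K) (h : x ^ n + y ^ n = z ^ n) (hx : x ≠ 0) (hy : y ≠ 0) (hz : z ≠ 0) :
    ∃ v : HeightOneSpectrum (𝓞 K), ((p : ℕ) : 𝓞 K) ∈ v.asIdeal ∧
      ¬ (v.valuation K x = v.valuation K y ∧ v.valuation K y = v.valuation K z) := by
  by_contra hcon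
  push Not at hcon
  obtain ⟨k, rfl⟩ := hn
  obtain ⟨v2, hv2, h2e, h2e'⟩ := Y546.WQ.split_two hK hq hq8 hr
  have hF : (x ^ k) ^ (2 * p) + (y ^ k) ^ (2 * p) = (z ^ k) ^ (2 * p) := by
    rw [← pow_mul, ← pow_mul, ← pow_mul, mul_comm k (2 * p), h]
  refine Y546.WQ.mainRT ⟨Y700.WQ.mainKA, Y448.WQ.mainKB, Y363.WQ.mainKC,
    Y837.WQ.mainKTOW Y693.WQ.mainKRAM, Y651.WQ.mainKFIN, Y936.WQ.mainKTWO, Y849.WQ.mainIDES,
    Y950.WQ.mainNOZ⟩ hp hp2 (Y546.WQ.real_of hK hq hr)
    (Y309.WQ.mainKNQ q hq (by omega) K hK hr) hin v2 hv2 1 odd_one hp.one_lt.le h2e h2e'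
    (pow_ne_zero k hx) (pow_ne_zero k hy) (pow_ne_zero k hz) hF fun v hv => ?_
  obtain ⟨h1, h2⟩ := hcon v hv
  rw [map_pow, map_pow, map_pow, h1, h2]
  exact ⟨rfl, rfl⟩

end Pool.Agent.Results.MP_50a406_nt.EvenInert
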