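import Pool.Agent.Y546.WQ.FinQ

/-!
# The Wieferich criterion over quadratic fields

Let `p ≥ 7` be a prime such that `2 ^ (p - 1)` is not congruent to `1` modulo `p ^ 2`, and let `K` be a
quadratic field of discriminant `d`. Then the first case of Fermat's Last Theorem holds over `K` for
all exponents divisible by `p` if two ramifies in `K`; if two splits in `K` and `p` does not divide
the Bernoulli number with index `p - 3`, or `- 15 d` is not a nonzero square modulo `p`; and if two
is inert in `K` and `- 3 d` is not a nonzero square modulo `p`. For `K = Q(√-3)`, where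
`1 + ω ^ p + ω ^ (2 p) = 0`, two is inert and `- 3 d = 9`, so the last condition cannot be dropped.
There is no condition on the class numbers and units of `K` or on the regularity of `p`.

Proof. Let `X ^ p + Y ^ p + Z ^ p = 0` in the first case, `A, B, C` the norms of `X, Y, Z` and `t` the
trace of `X` times the conjugate of `Y`. The norm `A + t ζ + B ζ ^ 2` of `X + ζ Y` to the field of
`p`-th roots of unity is a rational number times the `p`-th power of an ideal. The relation of
Stickelberger for the Jacobi sum `J (χ, χ)` makes a product of its conjugates equal to a root of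
unity times a `p`-th power. The root of unity is computed modulo the square of `1 - ζ` and modulo
two, and comparison gives a linear relation between `A, t, B` modulo `p` which depends on the
parities of `A, t, B`. The relations for the three pairs contradict each other unless, up to order,
`A : B : C = 2 : 2 : 3` modulo `p` and two splits, or `A : B : C = 1 : 1 : 1` and two is inert; here
`t ^ 2 - 4 A B`, a square times `d`, is `- 15` or `- 3` times a square. In the first of these cases
the relations of all Jacobi sums modulo higher powers of `1 - ζ` give that `p` divides the Bernoulli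
number with index `p - 3`.
-/

set_option autoImplicit false

namespace Pool.Agent.Results.MP_50a406_nt.WieferichQuadratic

open NumberField IsDedekindDomain

theorem result (K : Type) [Field K] [NumberField K] (hK : Module.finrank ℚ K = 2)
    (p n : ℕ) (hp : p.Prime) (h7 : 7 ≤ p) (hW : ¬ p ^ 2 ∣ 2 ^ (p - 1) - 1)
    (hd : Even (NumberField.discr K) ∨
      (NumberField.discr K % 8 = 1 ∧ (¬ (p : ℤ) ∣ (bernoulli (p - 3)).num ∨
        ¬ ∃ s : ZMod p, s ≠ 0 ∧ s ^ 2 = -15 * (NumberField.discr K : ZMod p))) ∨
      (NumberField.discr K % 8 = 5 ∧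
        ¬ ∃ s : ZMod p, s ≠ 0 ∧ s ^ 2 = -3 * (NumberField.discr K : ZMod p)))
    (hn : p ∣ n) (x y z : K) (h : x ^ n + y ^ n = z ^ n) (hx : x ≠ 0) (hy : y ≠ 0) (hz : z ≠ 0) :
    ∃ v : HeightOneSpectrum (𝓞 K), ((p : ℕ) : 𝓞 K) ∈ v.asIdeal ∧
      ¬ (v.valuation K x = v.valuation K y ∧ v.valuation K y = v.valuation K z) := by
  by_contra hcon
  push Not at hcon
  obtain ⟨k, rfl⟩ := hn
  have hodd : Odd p := hp.odd_of_ne_two (by omega)
  have hF : (x ^ k) ^ p + (y ^ k) ^ p + (-z ^ k) ^ p = 0 := by
    rw [hodd.neg_pow, ← pow_mul, ← pow_mul, ← pow_mul, mul_comm k p, h]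
    ring
  have hd' : Even (NumberField.discr K) ∨
      (NumberField.discr K % 8 = 1 ∧ (p - 3 ∉ Y546.WQ.irr p ∨
        ¬ ∃ s : ZMod p, s ≠ 0 ∧ s ^ 2 = -15 * (NumberField.discr K : ZMod p))) ∨
      (NumberField.discr K % 8 = 5 ∧
        ¬ ∃ s : ZMod p, s ≠ 0 ∧ s ^ 2 = -3 * (NumberField.discr K : ZMod p)) := by
    rcases hd with h | ⟨h, h' | h'⟩ | h
    · exact Or.inl h
    · refine Or.inr (Or.inl ⟨h, Or.inl fun hk => h' ?_⟩)
      unfold Y546.WQ.irr at hk
      exact (Finset.mem_filter.1 hk).2.2.2.2
    · exact Or.inr (Or.inl ⟨h, Or.inr h'⟩)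
    · exact Or.inr (Or.inr h)
  refine Y546.WQ.mainQ hp h7 hW hK hd' (pow_ne_zero k hx) (pow_ne_zero k hy)
    (neg_ne_zero.2 (pow_ne_zero k hz)) hF fun v hv => ?_
  obtain ⟨h1, h2⟩ := hcon v hv
  rw [Valuation.map_neg, map_pow, map_pow, map_pow, h1, h2]
  exact ⟨rfl, rfl⟩

end Pool.Agent.Results.MP_50a406_nt.WieferichQuadratic
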